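import Pool.Agent.W680.WH.Stm

/-!
# Products, adjoints and the action on the basis
-/

set_option autoImplicit false

open scoped ComplexConjugate InnerProductSpace
open ContinuousLinearMap Filter

namespace Pool.Agent.W885.WH

open Pool.Agent.W680.WH

/-- the square roots of the weights -/
noncomputable def s (n : ℤ) : ℝ := Real.sqrt (om n)

theorem s_pos (n : ℤ) : 0 < s n := Real.sqrt_pos.2 (om_pos n)

theorem s_ne (n : ℤ) : ((s n : ℝ) : ℂ) ≠ 0 := by
  exact_mod_cast (s_pos n).ne'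

theorem s_sq (n : ℤ) : s n * s n = om n := Real.mul_self_sqrt (om_pos n).le

theorem sqrt_div' (m n : ℤ) : Real.sqrt (om m / om n) = s m / s n :=
  Real.sqrt_div (om_pos m).le _

theorem Z_apply (f : E) (n : ℤ) : Z f n = ((s n : ℂ) / (s (n - 1) : ℂ)) * f (n - 1) := by
  unfold Z
  rw [wsh_apply, sqrt_div']
  push_cast
  rfl

theorem Zi_apply (f : E) (n : ℤ) : Zi f n = ((s n : ℂ) / (s (n + 1) : ℂ)) * f (n + 1) := by
  unfold Zi
  rw [wsh_apply, sqrt_div', sub_neg_eq_add]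
  push_cast
  rfl

theorem Zs_apply (f : E) (n : ℤ) : Zs f n = ((s (n + 1) : ℂ) / (s n : ℂ)) * f (n + 1) := by
  unfold Zs
  rw [wsh_apply, sqrt_div', sub_neg_eq_add]
  push_cast
  rfl

theorem Z2_apply (f : E) (n : ℤ) : Z2 f n = ((s (n - 1) : ℂ) / (s n : ℂ)) * f (n - 1) := by
  unfold Z2
  rw [wsh_apply, sqrt_div']
  push_cast
  rfl

theorem ne1 (n : ℤ) : (4 * (n : ℂ) + 1) ≠ 0 := by
  have h : ((4 * n + 1 : ℤ) : ℂ) ≠ 0 := by
    rw [Int.cast_ne_zero]
    omega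
  push_cast at h
  exact h

theorem ne3 (n : ℤ) : (4 * (n : ℂ) + 3) ≠ 0 := by
  have h : ((4 * n + 3 : ℤ) : ℂ) ≠ 0 := by
    rw [Int.cast_ne_zero]
    omega
  push_cast at h
  exact h

theorem s_succ (n : ℤ) : (s (n + 1) : ℂ) * s (n + 1) * (4 * (n : ℂ) + 1) =
    (s n : ℂ) * s n * (4 * (n : ℂ) + 3) := by
  have h : s (n + 1) * s (n + 1) * (4 * (n : ℝ) + 1) = s n * s n * (4 * (n : ℝ) + 3) := by
    have h1 : (4 * (n : ℝ) + 1) ≠ 0 := by
      have h : ((4 * n + 1 : ℤ) : ℝ) ≠ 0 := by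
        rw [Int.cast_ne_zero]
        omega
      push_cast at h
      exact h
    rw [s_sq, s_sq, om_succ]
    field_simp
  have h2 := congrArg (fun x : ℝ => (x : ℂ)) h
  push_cast at h2
  exact h2

theorem eb_same (n : ℤ) : eb n n = (s n : ℂ) := by
  unfold eb
  rw [lp.single_apply_self]
  rfl

theorem eb_ne {n m : ℤ} (h : m ≠ n) : eb n m = 0 := by
  unfold eb
  rw [lp.single_apply_ne _ _ _ h]

theorem ext_op {A B : E →L[ℂ] E} (h : ∀ (f : E) (n : ℤ), A f n = B f n) : A = B := by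
  apply ContinuousLinearMap.ext
  intro f
  apply lp.ext
  funext n
  exact h f n

theorem ext_E {f g : E} (h : ∀ n : ℤ, f n = g n) : f = g := lp.ext (funext h)

theorem smul_coe (c : ℂ) (f : E) (n : ℤ) : (c • f) n = c * f n := rfl

theorem prods : Z * Zi = 1 ∧ Zi * Z = 1 ∧ Z2 * Zs = 1 ∧ Zs * Z2 = 1 := by
  refine ⟨ext_op fun f n => ?_, ext_op fun f n => ?_, ext_op fun f n => ?_, ext_op fun f n => ?_⟩
  · have h1 := s_ne n
    have h2 := s_ne (n - 1)
    show Z (Zi f) n = f n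
    rw [Z_apply, Zi_apply, sub_add_cancel]
    field_simp
  · have h1 := s_ne n
    have h2 := s_ne (n + 1)
    show Zi (Z f) n = f n
    rw [Zi_apply, Z_apply, add_sub_cancel_right]
    field_simp
  · have h1 := s_ne n
    have h2 := s_ne (n - 1)
    show Z2 (Zs f) n = f n
    rw [Z2_apply, Zs_apply, sub_add_cancel]
    field_simp
  · have h1 := s_ne n
    have h2 := s_ne (n + 1)
    show Zs (Z2 f) n = f n
    rw [Zs_apply, Z2_apply, add_sub_cancel_right]
    field_simp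

theorem inner_C (a b : ℂ) : ⟪a, b⟫_ℂ = conj a * b := by
  rw [RCLike.inner_apply, mul_comm]

theorem adj1 : adjoint Z = Zs := by
  symm
  rw [ContinuousLinearMap.eq_adjoint_iff]
  intro x y
  rw [lp.inner_eq_tsum, lp.inner_eq_tsum,
    ← (Equiv.addRight (1 : ℤ)).tsum_eq (fun n => ⟪x n, Z y n⟫_ℂ)]
  refine tsum_congr fun n => ?_
  rw [Equiv.coe_addRight, Zs_apply, Z_apply, add_sub_cancel_right, inner_C, inner_C, map_mul,
    map_div₀, Complex.conj_ofReal, Complex.conj_ofReal]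
  ring

theorem adj2 : adjoint Zi = Z2 := by
  symm
  rw [ContinuousLinearMap.eq_adjoint_iff]
  intro x y
  rw [lp.inner_eq_tsum, lp.inner_eq_tsum,
    ← (Equiv.subRight (1 : ℤ)).tsum_eq (fun n => ⟪x n, Zi y n⟫_ℂ)]
  refine tsum_congr fun n => ?_
  rw [Equiv.subRight_apply, Z2_apply, Zi_apply, sub_add_cancel, inner_C, inner_C, map_mul,
    map_div₀, Complex.conj_ofReal, Complex.conj_ofReal]
  ring

theorem Z_eb (n : ℤ) : Z (eb n) = eb (n + 1) := by
  apply ext_E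
  intro m
  rw [Z_apply]
  by_cases h : m = n + 1
  · subst h
    rw [add_sub_cancel_right, eb_same, eb_same]
    have := s_ne n
    field_simp
  · rw [eb_ne h, eb_ne (by omega), mul_zero]

theorem Zi_eb (n : ℤ) : Zi (eb n) = eb (n - 1) := by
  apply ext_E
  intro m
  rw [Zi_apply]
  by_cases h : m = n - 1
  · subst h
    rw [sub_add_cancel, eb_same, eb_same]
    have := s_ne n
    field_simp
  · rw [eb_ne h, eb_ne (by omega), mul_zero]

theorem Z2_eb (n : ℤ) :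
    Z2 (eb n) = ((4 * (n : ℂ) + 1) / (4 * (n : ℂ) + 3)) • eb (n + 1) := by
  apply ext_E
  intro m
  rw [Z2_apply, smul_coe]
  by_cases h : m = n + 1
  · subst h
    rw [add_sub_cancel_right, eb_same, eb_same]
    have h1 := s_ne n
    have h2 := s_ne (n + 1)
    have h3 := ne3 n
    have h4 := s_succ n
    field_simp
    linear_combination -h4
  · rw [eb_ne h, eb_ne (by omega), mul_zero, mul_zero]

theorem Zs_eb (n : ℤ) :
    Zs (eb (n + 1)) = ((4 * (n : ℂ) + 3) / (4 * (n : ℂ) + 1)) • eb n := by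
  apply ext_E
  intro m
  rw [Zs_apply, smul_coe]
  by_cases h : m = n
  · subst h
    rw [eb_same, eb_same]
    have h1 := s_ne m
    have h2 := s_ne (m + 1)
    have h3 := ne1 m
    have h4 := s_succ m
    field_simp
    linear_combination h4
  · rw [eb_ne h, eb_ne (by omega), mul_zero, mul_zero]

theorem Q_eb (n : ℤ) : Q (eb n) = (2 / (4 * (n : ℂ) + 3)) • eb (n + 1) := by
  have h : Q (eb n) = Z (eb n) - Z2 (eb n) := rfl
  have h3 := ne3 n
  rw [h, Z_eb, Z2_eb]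
  have e : (2 / (4 * (n : ℂ) + 3)) = 1 - ((4 * (n : ℂ) + 1) / (4 * (n : ℂ) + 3)) := by
    field_simp
    ring
  rw [e, sub_smul, one_smul]

theorem X_eb (n : ℤ) : X (eb n) =
    (-((16 * (n : ℂ) + 8) / ((4 * (n : ℂ) + 1) * (4 * (n : ℂ) + 3)))) • eb (n + 1) := by
  have h : X (eb n) = -((2 : ℂ) • Q (eb n) + Q (Zs (Q (eb n)))) := rfl
  rw [h, Q_eb, map_smul, Zs_eb, map_smul, map_smul, Q_eb, smul_smul, smul_smul, smul_smul,
    ← add_smul, ← neg_smul]
  congr 1
  have h1 := ne1 n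
  have h3 := ne3 n
  field_simp
  ring

theorem Q_apply (f : E) (n : ℤ) :
    Q f n = ((s n : ℂ) / (s (n - 1) : ℂ) - (s (n - 1) : ℂ) / (s n : ℂ)) * f (n - 1) := by
  have h : Q f n = Z f n - Z2 f n := rfl
  rw [h, Z_apply, Z2_apply]
  ring

theorem comm : Z2 * Z - Z * Z2 = (2 : ℂ) • (Q * Q) := by
  apply ext_op
  intro f n
  have h : (Z2 * Z - Z * Z2) f n = Z2 (Z f) n - Z (Z2 f) n := rfl
  have h' : ((2 : ℂ) • (Q * Q)) f n = 2 * Q (Q f) n := rfl
  rw [h, h', Z2_apply, Z_apply, Z_apply, Z2_apply, Q_apply, Q_apply]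
  have e : n - 1 - 1 = n - 2 := by ring
  rw [e]
  have a1 := s_ne n
  have a2 := s_ne (n - 1)
  have a3 := s_ne (n - 2)
  have h1 := s_succ (n - 1)
  have h2 := s_succ (n - 2)
  have e1 : n - 1 + 1 = n := by ring
  have e2 : n - 2 + 1 = n - 1 := by ring
  rw [e1] at h1
  rw [e2] at h2
  push_cast at h1 h2
  have b1 := ne1 (n - 1)
  have b2 := ne3 (n - 2)
  push_cast at b1 b2
  -- `a² = b² r₁`, `c² = b² / r₂`
  have k1 : (s n : ℂ) * s n =
      (s (n - 1) : ℂ) * s (n - 1) * ((4 * ((n : ℂ) - 1) + 3) / (4 * ((n : ℂ) - 1) + 1)) := by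
    field_simp
    linear_combination h1
  have k2 : (s (n - 2) : ℂ) * s (n - 2) =
      (s (n - 1) : ℂ) * s (n - 1) * ((4 * ((n : ℂ) - 2) + 1) / (4 * ((n : ℂ) - 2) + 3)) := by
    field_simp
    linear_combination -h2
  have key : ((s (n - 1) : ℂ) * s (n - 1)) * (s (n - 1) * s (n - 1)) -
      ((s n : ℂ) * s n) * (s (n - 2) * s (n - 2)) =
      2 * (((s n : ℂ) * s n - s (n - 1) * s (n - 1)) *
        (s (n - 1) * s (n - 1) - s (n - 2) * s (n - 2))) := by
    rw [k1, k2]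
    field_simp
    ring
  have fin : (s (n - 1) : ℂ) / s n * ((s (n - 1) : ℂ) / s (n - 2)) -
      (s n : ℂ) / s (n - 1) * ((s (n - 2) : ℂ) / s (n - 1)) =
      2 * (((s n : ℂ) / (s (n - 1) : ℂ) - (s (n - 1) : ℂ) / (s n : ℂ)) *
        ((s (n - 1) : ℂ) / (s (n - 2) : ℂ) - (s (n - 2) : ℂ) / (s (n - 1) : ℂ))) := by
    field_simp
    linear_combination key
  linear_combination (f (n - 2)) * fin

theorem opa : S_OPA :=
  ⟨prods, ⟨adj1, adj2⟩, ⟨Z_eb, Zi_eb, Z2_eb, Zs_eb, Q_eb, X_eb⟩, comm⟩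

end Pool.Agent.W885.WH
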